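import Pool.Agent.PDM.Stmts

/-! TET: the tetrahedron -/

set_option autoImplicit false

namespace Pool.Agent.PDM.H17

open Pool.Agent.PDN Pool.Agent.PDM

/-- the faces of the tetrahedron -/
def fs : List (Fin 4 × Fin 4 × Fin 4) :=
  [(0, 1, 2), (1, 2, 0), (2, 0, 1), (0, 2, 3), (2, 3, 0), (3, 0, 2), (0, 3, 1), (3, 1, 0),
    (1, 0, 3), (1, 3, 2), (3, 2, 1), (2, 1, 3)]

/-- the relation of the tetrahedron -/
def ft (u v w : Fin 4) : Prop := (u, v, w) ∈ fs

instance (u v w : Fin 4) : Decidable (ft u v w) := by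
  unfold ft
  infer_instance

theorem adj_iff : ∀ u v : Fin 4, (∃ w, ft u v w) ↔ u ≠ v := by decide

/-- the tetrahedron -/
def tet : Tri (Fin 4) where
  f := ft
  cyc := by
    have h : ∀ u v w : Fin 4, ft u v w → ft v w u := by decide
    exact fun {u v w} => h u v w
  uniq := by
    have h : ∀ u v w w' : Fin 4, ft u v w → ft u v w' → w = w' := by decide
    exact fun {u v w w'} => h u v w w'
  opp := by
    have h : ∀ u v w : Fin 4, ft u v w → ∃ w', ft v u w' := by decide
    exact fun {u v w} => h u v w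
  ne := by
    have h : ∀ u v w : Fin 4, ft u v w → u ≠ v := by decide
    exact fun {u v w} => h u v w
  link := by
    have h : ∀ u v w : Fin 4, u ≠ v → u ≠ w →
        v = w ∨ ft u v w ∨ ∃ z, ft u v z ∧ ft u z w := by decide
    intro u v w h1 h2
    rw [adj_iff] at h1 h2
    rcases h u v w h1 h2 with h3 | h3 | ⟨z, h3, h4⟩
    · rw [h3]
    · exact Relation.ReflTransGen.single h3
    · exact (Relation.ReflTransGen.single h3).tail h4

theorem tet_adj (u v : Fin 4) : tet.Adj u v ↔ u ≠ v := adj_iff u v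

theorem tet_deg (u : Fin 4) : tet.deg u = 3 := by
  unfold Tri.deg
  have h : Nat.card {v : Fin 4 // tet.Adj u v} = Nat.card {v : Fin 4 // u ≠ v} :=
    Nat.card_congr (Equiv.subtypeEquivRight fun v => tet_adj u v)
  rw [h, Nat.card_eq_fintype_card]
  clear h
  revert u
  decide

theorem tet_conn : tet.graph.Connected := by
  have : Nonempty (Fin 4) := ⟨0⟩
  refine SimpleGraph.Connected.mk ?_
  intro u v
  by_cases h : u = v
  · rw [h]
  · exact SimpleGraph.Adj.reachable ((tet_adj u v).2 h)

theorem flt (p : Fin 4 → Prop) (inst : DecidablePred p) (h : ∀ v, ¬ p v) (g : Fin 4 → ℕ × Bool) :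
    (@Finset.filter _ p inst Finset.univ).val.map g = 0 := by
  have h1 : @Finset.filter _ p inst Finset.univ = ∅ := by
    rw [Finset.filter_eq_empty_iff]
    intro v _
    exact h v
  rw [h1]
  rfl

theorem tetS : TetStmt := by
  unfold TetStmt Rl
  refine ⟨Fin 4, inferInstance, tet, fun i => Fin.ofNat 4 i, fun _ _ _ => False, tet_conn, ?_, ?_,
    ?_, ?_, ?_, ?_⟩
  · exact ⟨fun h => h.elim, fun h => h.elim, fun h => h.elim⟩
  · intro i j hi hj h
    have h1 := congrArg Fin.val h
    simp only [Fin.ofNat, Nat.mod_eq_of_lt hi, Nat.mod_eq_of_lt hj] at h1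
    exact h1
  · intro p hp
    simp only [List.mem_cons, List.not_mem_nil, or_false] at hp
    rcases hp with rfl | rfl | rfl | rfl
    · exact ⟨by decide, by decide, by decide, (by decide : ft 0 1 2), fun h => h⟩
    · exact ⟨by decide, by decide, by decide, (by decide : ft 0 2 3), fun h => h⟩
    · exact ⟨by decide, by decide, by decide, (by decide : ft 0 3 1), fun h => h⟩
    · exact ⟨by decide, by decide, by decide, (by decide : ft 1 3 2), fun h => h⟩
  · intro i _
    exact tet_deg _
  · intro i _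
    refine ⟨?_, ?_⟩
    · rintro ⟨_, _, h⟩
      exact h.elim
    · intro h
      exact absurd h List.not_mem_nil
  · refine flt _ _ ?_ _
    intro v hv
    apply hv v.val v.isLt
    apply Fin.ext
    simp [Fin.ofNat, Nat.mod_eq_of_lt v.isLt]

end Pool.Agent.PDM.H17
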